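import Mathlib
import Pool.Agent.Y90.Pie4

/-!
# Tangent spaces and the eigenspaces of the complex structure
-/

set_option linter.unusedSectionVars false

namespace Pool.Agent.Y261.P

open Matrix Module Pool.Agent.Y90 Pool.Agent.W437.HC Pool.Agent.W437.HD Pool.Agent.W548.Odd

noncomputable section

variable {g : ℕ} {Z : Matrix (Fin g) (Fin g) ℂ}
  {φ : Matrix (Fin g ⊕ Fin g) (Fin g ⊕ Fin g) ℚ} {Ψ : (Fin g → ℂ) →ₗ[ℂ] (Fin g → ℂ)}

/-- The complex linear extension of the period map. -/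
def perC (Z : Matrix (Fin g) (Fin g) ℂ) : (Fin g ⊕ Fin g → ℂ) →ₗ[ℂ] (Fin g → ℂ) where
  toFun v := fun i => v (Sum.inl i) + ∑ k, Z i k * v (Sum.inr k)
  map_add' v w := by
    funext i
    simp only [Pi.add_apply, mul_add, Finset.sum_add_distrib]
    ring
  map_smul' c v := by
    funext i
    simp only [Pi.smul_apply, smul_eq_mul, RingHom.id_apply, mul_add, Finset.mul_sum]
    congr 1
    exact Finset.sum_congr rfl fun k _ => by ring

theorem mat_ext {m n : Type*} [Fintype n] [DecidableEq n] {A C : Matrix m n ℂ}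
    (h : ∀ v, A *ᵥ v = C *ᵥ v) : A = C := by
  ext i j
  have h1 := congrFun (h (Pi.single j 1)) i
  simpa using h1

theorem perC_rat (w : Fin g ⊕ Fin g → ℚ) :
    perC Z (fun i => ((w i : ℚ) : ℂ)) = perOne Z w := rfl

theorem qm_cast (φ : Matrix (Fin g ⊕ Fin g) (Fin g ⊕ Fin g) ℚ) (w : Fin g ⊕ Fin g → ℚ) :
    qm φ *ᵥ (fun i => ((w i : ℚ) : ℂ)) = fun i => (((φ *ᵥ w) i : ℚ) : ℂ) := by
  funext i
  simp [mulVec, dotProduct]

theorem perC_comp (hΨ : ∀ v, Ψ (perOne Z v) = perOne Z (φ *ᵥ v)) (v : Fin g ⊕ Fin g → ℂ) :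
    perC Z (qm φ *ᵥ v) = Ψ (perC Z v) := by
  have h1 : (perC Z).comp (mulVecLin (qm φ)) = Ψ.comp (perC Z) := by
    refine (Pi.basisFun ℂ (Fin g ⊕ Fin g)).ext fun i => ?_
    have h2 : (Pi.basisFun ℂ (Fin g ⊕ Fin g)) i =
        fun j => (((Pi.single i 1 : Fin g ⊕ Fin g → ℚ) j : ℚ) : ℂ) := by
      funext j
      rw [Pi.basisFun_apply]
      by_cases hj : j = i
      · subst hj
        simp
      · simp [Pi.single_eq_of_ne hj]
    rw [h2, LinearMap.comp_apply, LinearMap.comp_apply, mulVecLin_apply, qm_cast, perC_rat,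
      perC_rat, hΨ]
  exact LinearMap.congr_fun h1 v

theorem perC_surj : Function.Surjective (perC Z) := by
  intro t
  refine ⟨Sum.elim t 0, ?_⟩
  funext i
  simp [perC]

theorem ker_perC (h : PM Z) : LinearMap.ker (perC Z) = eig Z (-1) := by
  refine Submodule.eq_of_le_of_finrank_le ?_ ?_
  · intro v hv
    have h1 : v = vecL Z (fun i => v (Sum.inr i)) := by
      funext i
      rcases i with i | i
      · have h2 := congrFun (LinearMap.mem_ker.1 hv) i
        simp only [perC, LinearMap.coe_mk, AddHom.coe_mk, Pi.zero_apply] at h2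
        simp only [vecL, Sum.elim_inl, Pi.neg_apply, mulVec, dotProduct]
        exact eq_neg_of_add_eq_zero_left h2
      · rfl
    rw [mem_eig, h1, DZ_vecL h.det, neg_one_smul]
  · have h1 := LinearMap.finrank_range_add_finrank_ker (perC Z)
    rw [LinearMap.range_eq_top.2 perC_surj, finrank_top, finrank_V,
      Module.finrank_fintype_fun_eq_card, Fintype.card_fin] at h1
    rw [(finrank_eig h).2]
    omega

theorem perC_zero (h : PM Z) {v : Fin g ⊕ Fin g → ℂ} (hv : v ∈ eig Z 1) (h0 : perC Z v = 0) :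
    v = 0 := by
  have h1 : v ∈ eig Z 1 ⊓ eig Z (-1) := ⟨hv, by rw [← ker_perC h]; exact h0⟩
  rw [eig_inf 1 (-1) (by norm_num)] at h1
  simpa using h1

theorem perC_eig (h : PM Z) (t : Fin g → ℂ) : ∃ v ∈ eig Z 1, perC Z v = t := by
  obtain ⟨v, rfl⟩ := perC_surj (Z := Z) t
  have h1 : v ∈ eig Z 1 ⊔ eig Z (-1) := by rw [eig_sup h]; trivial
  obtain ⟨a, ha, b, hb, rfl⟩ := Submodule.mem_sup.1 h1
  rw [← ker_perC h] at hb
  exact ⟨a, ha, by rw [map_add, LinearMap.mem_ker.1 hb, add_zero]⟩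

/-- The matrix of an endomorphism commutes with the complex structure. -/
theorem comm_of_tangent (h : PM Z) (hΨ : ∀ v, Ψ (perOne Z v) = perOne Z (φ *ᵥ v)) :
    qm φ * DZ Z = DZ Z * qm φ := by
  have h1 : ∀ v ∈ eig Z (-1), qm φ *ᵥ v ∈ eig Z (-1) := by
    intro v hv
    rw [← ker_perC h, LinearMap.mem_ker] at hv ⊢
    rw [perC_comp hΨ, hv, map_zero]
  have h2 : ∀ v ∈ eig Z 1, qm φ *ᵥ v ∈ eig Z 1 := by
    intro v hv
    rw [← cjS_eig', mem_cjS] at hv ⊢
    have h3 := h1 _ hv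
    have h4 := map_mulVec_aut cc.symm (qm φ) v
    have h5 : (qm φ).map cc.symm = qm φ := qm_aut φ (cc.symm : ℂ →+* ℂ)
    rw [h5] at h4
    rw [h4]
    exact h3
  have key : ∀ v, (qm φ * DZ Z) *ᵥ v = (DZ Z * qm φ) *ᵥ v := by
    intro v
    have h3 : v ∈ eig Z 1 ⊔ eig Z (-1) := by rw [eig_sup h]; trivial
    obtain ⟨a, ha, b, hb, rfl⟩ := Submodule.mem_sup.1 h3
    rw [← mulVec_mulVec, ← mulVec_mulVec]
    simp only [mulVec_add]
    rw [mem_eig.1 ha, mem_eig.1 hb, mulVec_smul, mulVec_smul, mem_eig.1 (h2 a ha),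
      mem_eig.1 (h1 b hb)]
  exact mat_ext key

/-- The eigenspaces of a rational matrix. -/
def eqm (φ : Matrix (Fin g ⊕ Fin g) (Fin g ⊕ Fin g) ℚ) (z : ℂ) :
    Submodule ℂ (Fin g ⊕ Fin g → ℂ) :=
  Module.End.eigenspace (mulVecLin (qm φ)) z

theorem mem_eqm {z : ℂ} {v : Fin g ⊕ Fin g → ℂ} : v ∈ eqm φ z ↔ qm φ *ᵥ v = z • v := by
  unfold eqm
  rw [Module.End.mem_eigenspace_iff, mulVecLin_apply]

/-- The multiplicities on the tangent space. -/
theorem finrank_eigen (h : PM Z) (hΨ : ∀ v, Ψ (perOne Z v) = perOne Z (φ *ᵥ v)) (z : ℂ) :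
    finrank ℂ (Module.End.eigenspace Ψ z) = finrank ℂ (eqm φ z ⊓ eig Z 1 : Submodule ℂ _) := by
  set S : Submodule ℂ (Fin g ⊕ Fin g → ℂ) := eqm φ z ⊓ eig Z 1 with hS
  have hc := comm_of_tangent h hΨ
  have h1 : Function.Injective ((perC Z).domRestrict S) := by
    rw [injective_iff_map_eq_zero]
    intro u hu
    exact Subtype.ext (perC_zero h u.2.2 hu)
  have h2 : LinearMap.range ((perC Z).domRestrict S) = Module.End.eigenspace Ψ z := by
    rw [LinearMap.range_domRestrict]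
    apply le_antisymm
    · rintro _ ⟨v, ⟨hv, _⟩, rfl⟩
      rw [Module.End.mem_eigenspace_iff, ← perC_comp hΨ, mem_eqm.1 hv, map_smul]
    · intro t ht
      obtain ⟨v, hv, rfl⟩ := perC_eig h t
      refine ⟨v, ⟨?_, hv⟩, rfl⟩
      rw [Module.End.mem_eigenspace_iff, ← perC_comp hΨ, ← map_smul, ← sub_eq_zero,
        ← map_sub] at ht
      rw [SetLike.mem_coe, mem_eqm, ← sub_eq_zero]
      refine perC_zero h ?_ ht
      refine (eig Z 1).sub_mem ?_ ((eig Z 1).smul_mem _ hv)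
      rw [mem_eig, mulVec_mulVec, ← hc, ← mulVec_mulVec, mem_eig.1 hv, one_smul, one_smul]
  rw [← h2]
  exact LinearMap.finrank_range_of_inj h1

theorem aeval_mulVec {M : Matrix (Fin g ⊕ Fin g) (Fin g ⊕ Fin g) ℂ} {α : ℂ}
    {u : Fin g ⊕ Fin g → ℂ} (hu : M *ᵥ u = α • u) (p : Polynomial ℚ) :
    (Polynomial.aeval M p) *ᵥ u = (Polynomial.aeval α p) • u := by
  have hpow : ∀ n : ℕ, (M ^ n) *ᵥ u = α ^ n • u := by
    intro n
    induction n with
    | zero => simp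
    | succ n ih => rw [pow_succ, ← mulVec_mulVec, hu, mulVec_smul, ih, smul_smul, pow_succ, mul_comm]
  induction p using Polynomial.induction_on' with
  | add p q hp hq => rw [map_add, map_add, add_mulVec, add_smul, hp, hq]
  | monomial n a =>
    rw [Polynomial.aeval_monomial, Polynomial.aeval_monomial, Algebra.algebraMap_eq_smul_one,
      smul_mul_assoc, one_mul, smul_mulVec, hpow, ← smul_assoc, Algebra.algebraMap_eq_smul_one,
      smul_mul_assoc, one_mul]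

/-- `qm` as a homomorphism of algebras -/
theorem qm_aeval (p : Polynomial ℚ) : qm (Polynomial.aeval φ p) = Polynomial.aeval (qm φ) p := by
  have h1 := Polynomial.aeval_algHom_apply
    ((Algebra.ofId ℚ ℂ).mapMatrix : Matrix (Fin g ⊕ Fin g) (Fin g ⊕ Fin g) ℚ →ₐ[ℚ] _) φ p
  have h2 : ∀ u : Matrix (Fin g ⊕ Fin g) (Fin g ⊕ Fin g) ℚ,
      ((Algebra.ofId ℚ ℂ).mapMatrix : Matrix (Fin g ⊕ Fin g) (Fin g ⊕ Fin g) ℚ →ₐ[ℚ] _) u =
        qm u := fun u => rfl
  rw [h2, h2] at h1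
  exact h1.symm

theorem mem_adj {u : Matrix (Fin g ⊕ Fin g) (Fin g ⊕ Fin g) ℚ}
    (hu : u ∈ Algebra.adjoin ℚ ({φ} : Set (Matrix (Fin g ⊕ Fin g) (Fin g ⊕ Fin g) ℚ))) :
    ∃ p : Polynomial ℚ, u = Polynomial.aeval φ p := by
  rw [Algebra.adjoin_singleton_eq_range_aeval] at hu
  obtain ⟨p, hp⟩ := hu
  exact ⟨p, hp.symm⟩

/-- Matrices commuting with the complex structure and with rational entries commute with the Lie
algebra. -/
theorem qm_comm {u : Matrix (Fin g ⊕ Fin g) (Fin g ⊕ Fin g) ℚ}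
    (hu : qm u * DZ Z = DZ Z * qm u) : ∀ X ∈ LZ Z, qm u * X = X * qm u := by
  let C : Submodule ℂ (Matrix (Fin g ⊕ Fin g) (Fin g ⊕ Fin g) ℂ) :=
    { carrier := {X | qm u * X = X * qm u}
      zero_mem' := by
        change qm u * 0 = 0 * qm u
        rw [mul_zero, zero_mul]
      add_mem' := by
        intro a b ha hb
        change qm u * (a + b) = (a + b) * qm u
        rw [mul_add, add_mul, ha, hb]
      smul_mem' := by
        intro c a ha
        change qm u * (c • a) = (c • a) * qm u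
        rw [mul_smul_comm, smul_mul_assoc, ha] }
  have h1 : LZ Z ≤ C := by
    refine LZ_le ?_ ?_
    · intro σ
      change qm u * DS Z σ = DS Z σ * qm u
      have h2 := congrArg (fun X : Matrix (Fin g ⊕ Fin g) (Fin g ⊕ Fin g) ℂ =>
        X.map (σ : ℂ →+* ℂ)) hu
      simp only [Matrix.map_mul, qm_aut] at h2
      exact h2
    · intro a ha b hb
      change qm u * (a * b - b * a) = (a * b - b * a) * qm u
      have ha' : qm u * a = a * qm u := ha
      have hb' : qm u * b = b * qm u := hb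
      rw [mul_sub, sub_mul, ← mul_assoc, ha', mul_assoc a, hb', ← mul_assoc, ← mul_assoc, hb',
        mul_assoc b, ha', ← mul_assoc]
  exact fun X hX => h1 hX

theorem irr_eq (h : PM Z) (hc : qm φ * DZ Z = DZ Z * qm φ)
    (hg : ∀ ψ : Matrix (Fin g ⊕ Fin g) (Fin g ⊕ Fin g) ℚ, qm ψ * DZ Z = DZ Z * qm ψ →
      ψ ∈ Algebra.adjoin ℚ ({φ} : Set (Matrix (Fin g ⊕ Fin g) (Fin g ⊕ Fin g) ℚ)))
    {U : Submodule ℂ (Fin g ⊕ Fin g → ℂ)} (hU : IrS (LZ Z) U) :
    ∃ α ∈ (minpoly ℚ φ).aroots ℂ, U = eqm φ α := by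
  obtain ⟨π, p1, p2, p3⟩ := h.cred U hU.2.1
  set M := LinearMap.toMatrix' π with hM
  have hMv : ∀ v, M *ᵥ v = π v := by
    intro v
    rw [hM, ← Matrix.toLin'_apply, Matrix.toLin'_toMatrix']
  have hMc : InCm {DZ Z} M := by
    intro X hX
    refine mat_ext fun v => ?_
    rw [← mulVec_mulVec, ← mulVec_mulVec, hMv, hMv, p1 X hX]
  -- elements of the commutant
  have hu : ∀ u : Matrix (Fin g ⊕ Fin g) (Fin g ⊕ Fin g) ℚ, InCm {DZ Z} (qm u) →
      ∃ p : Polynomial ℚ, u = Polynomial.aeval φ p := fun u hu =>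
    mem_adj (hg u (hu _ DZ_mem))
  have c1 : ∀ X, InCm {DZ Z} X → X * qm φ = qm φ * X := by
    refine Cm_induction ?_ ?_ ?_ ?_
    · intro u hu'
      obtain ⟨p, rfl⟩ := hu u hu'
      rw [← qm_mul, ← qm_mul]
      congr 1
      have h3 := congrArg (Polynomial.aeval φ) (mul_comm p Polynomial.X)
      rwa [map_mul, map_mul, Polynomial.aeval_X] at h3
    · rw [zero_mul, mul_zero]
    · intro X Y hX hY
      rw [add_mul, mul_add, hX, hY]
    · intro c X hX
      rw [smul_mul_assoc, mul_smul_comm, hX]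
  have c2 : ∀ α : ℂ, ∀ X, InCm {DZ Z} X → ∃ k : ℂ, ∀ v ∈ eqm φ α, X *ᵥ v = k • v := by
    intro α
    refine Cm_induction ?_ ?_ ?_ ?_
    · intro u hu'
      obtain ⟨p, rfl⟩ := hu u hu'
      refine ⟨Polynomial.aeval α p, fun v hv => ?_⟩
      rw [qm_aeval]
      exact aeval_mulVec (mem_eqm.1 hv) p
    · exact ⟨0, fun v _ => by rw [zero_mulVec, zero_smul]⟩
    · rintro X Y ⟨k, hk⟩ ⟨l, hl⟩
      exact ⟨k + l, fun v hv => by rw [add_mulVec, hk v hv, hl v hv, add_smul]⟩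
    · rintro c X ⟨k, hk⟩
      exact ⟨c * k, fun v hv => by rw [smul_mulVec, hk v hv, smul_smul]⟩
  -- `U` is stable
  have hst : ∀ v ∈ U, mulVecLin (qm φ) v ∈ U := by
    intro v hv
    have h1 : M *ᵥ (qm φ *ᵥ v) = qm φ *ᵥ v := by
      rw [mulVec_mulVec, c1 M hMc, ← mulVec_mulVec, hMv, p3 v hv]
    rw [mulVecLin_apply, ← h1, hMv]
    exact p2 _
  have hnt : Nontrivial U := Submodule.nontrivial_iff_ne_bot.2 hU.1
  obtain ⟨α, hα⟩ := Module.End.exists_eigenvalue ((mulVecLin (qm φ)).restrict hst)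
  obtain ⟨⟨u, huU⟩, hu1, hu2⟩ := hα.exists_hasEigenvector
  have hu0 : u ≠ 0 := fun h0 => hu2 (Subtype.ext h0)
  have hue : qm φ *ᵥ u = α • u := by
    have := congrArg Subtype.val (Module.End.mem_eigenspace_iff.1 hu1)
    simpa using this
  have huW : u ∈ eqm φ α := mem_eqm.2 hue
  have hWs : Stab (LZ Z) (eqm φ α) := by
    intro X hX v hv
    rw [mem_eqm] at hv ⊢
    rw [mulVec_mulVec, qm_comm hc X hX, ← mulVec_mulVec, hv, mulVec_smul]
  have hUW : U ≤ eqm φ α := by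
    rcases hU.2.2 _ inf_le_left (hU.2.1.inf hWs) with h1 | h1
    · exfalso
      have h2 : u ∈ U ⊓ eqm φ α := ⟨huU, huW⟩
      rw [h1, Submodule.mem_bot] at h2
      exact hu0 h2
    · rw [← h1]
      exact inf_le_right
  refine ⟨α, ?_, le_antisymm hUW ?_⟩
  · rw [Polynomial.mem_aroots]
    refine ⟨minpoly.ne_zero (Matrix.isIntegral φ), ?_⟩
    have h1 := aeval_mulVec hue (minpoly ℚ φ)
    rw [← qm_aeval, minpoly.aeval, qm_zero, zero_mulVec] at h1
    exact (smul_eq_zero.1 h1.symm).resolve_right hu0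
  · obtain ⟨k, hk⟩ := c2 α M hMc
    have h1 := hk u huW
    rw [hMv, p3 u huU] at h1
    have hk1 : k = 1 := by
      have h2 : (k - 1) • u = 0 := by rw [sub_smul, ← h1, one_smul, sub_self]
      exact sub_eq_zero.1 ((smul_eq_zero.1 h2).resolve_right hu0)
    intro v hv
    have h2 := hk v hv
    rw [hk1, one_smul, hMv] at h2
    rw [← h2]
    exact p2 v

theorem cjS_eqm (α : ℂ) : cjS cc (eqm φ α) = eqm φ (starRingEnd ℂ α) := by
  ext v
  rw [mem_cjS, mem_eqm, mem_eqm]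
  have h4 := map_mulVec_aut cc.symm (qm φ) v
  have h5 : (qm φ).map cc.symm = qm φ := qm_aut φ (cc.symm : ℂ →+* ℂ)
  rw [h5] at h4
  rw [← h4]
  constructor
  · intro h6
    funext i
    have h7 := congrArg cc (congrFun h6 i)
    simpa [cc_apply, cc_symm] using h7
  · intro h6
    funext i
    have h7 := congrArg cc.symm (congrFun h6 i)
    simpa [cc_apply, cc_symm] using h7

theorem coprime_irr (h : PM Z) (hΨ : ∀ v, Ψ (perOne Z v) = perOne Z (φ *ᵥ v))
    (hg : ∀ ψ : Matrix (Fin g ⊕ Fin g) (Fin g ⊕ Fin g) ℚ, qm ψ * DZ Z = DZ Z * qm ψ →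
      ψ ∈ Algebra.adjoin ℚ ({φ} : Set (Matrix (Fin g ⊕ Fin g) (Fin g ⊕ Fin g) ℚ)))
    (hc : ∀ z ∈ (minpoly ℚ φ).aroots ℂ, Nat.Coprime
      (Module.finrank ℂ ↥(Module.End.eigenspace Ψ z))
      (Module.finrank ℂ ↥(Module.End.eigenspace Ψ (starRingEnd ℂ z))))
    (U : Submodule ℂ (Fin g ⊕ Fin g → ℂ)) (hU : IrS (LZ Z) U) :
    Nat.Coprime (pd Z U) (qd Z U) := by
  obtain ⟨α, hα, rfl⟩ := irr_eq h (comm_of_tangent h hΨ) hg hU
  have h1 := hc α hα
  rw [finrank_eigen h hΨ, finrank_eigen h hΨ, ← cjS_eqm] at h1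
  have h2 : finrank ℂ (cjS cc (eqm φ α) ⊓ eig Z 1 : Submodule ℂ (Fin g ⊕ Fin g → ℂ)) =
      qd Z (eqm φ α) := pd_cc _
  rw [h2] at h1
  exact h1

end

end Pool.Agent.Y261.P
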