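import Mathlib
import Pool.Agent.Y4.P.Jobs3
import Pool.Agent.Y261.P.Tang0

/-!
# Project P: the spectral decomposition for a maximal commutative subfield
-/

set_option linter.unusedSectionVars false

namespace Pool.Agent.Y261.P

open Matrix Module Pool.Agent.Y90 Pool.Agent.W437.HC Pool.Agent.W437.HD Pool.Agent.W548.Odd
open Pool.Agent.Y4.P (EigM MaxM HasPr)

noncomputable section

variable {g : ℕ} {Z : Matrix (Fin g) (Fin g) ℂ}
  {φ : Matrix (Fin g ⊕ Fin g) (Fin g ⊕ Fin g) ℚ}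

theorem mem_EigM {z : ℂ} {v : Fin g ⊕ Fin g → ℂ} : v ∈ EigM φ z ↔ qm φ *ᵥ v = z • v :=
  Module.End.mem_eigenspace_iff

/-- Complex polynomials on eigenvectors. -/
theorem aevalC_mulVec {M : Matrix (Fin g ⊕ Fin g) (Fin g ⊕ Fin g) ℂ} {α : ℂ}
    {u : Fin g ⊕ Fin g → ℂ} (hu : M *ᵥ u = α • u) (p : Polynomial ℂ) :
    (Polynomial.aeval M p) *ᵥ u = (p.eval α) • u := by
  have hpow : ∀ n : ℕ, (M ^ n) *ᵥ u = α ^ n • u := by
    intro n
    induction n with
    | zero => simp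
    | succ n ih => rw [pow_succ, ← mulVec_mulVec, hu, mulVec_smul, ih, smul_smul, pow_succ, mul_comm]
  induction p using Polynomial.induction_on' with
  | add p q hp hq => rw [map_add, Polynomial.eval_add, add_mulVec, add_smul, hp, hq]
  | monomial n a =>
    rw [Polynomial.aeval_monomial, Polynomial.eval_monomial, Algebra.algebraMap_eq_smul_one,
      smul_mul_assoc, one_mul, smul_mulVec, hpow, smul_smul]

theorem aevalC_comm {A M : Matrix (Fin g ⊕ Fin g) (Fin g ⊕ Fin g) ℂ} (h : A * M = M * A)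
    (p : Polynomial ℂ) : A * Polynomial.aeval M p = Polynomial.aeval M p * A := by
  induction p using Polynomial.induction_on' with
  | add p q hp hq => rw [map_add, mul_add, add_mul, hp, hq]
  | monomial n a =>
    have h1 : Commute A (M ^ n) := (show Commute A M from h).pow_right n
    rw [Polynomial.aeval_monomial, Algebra.algebraMap_eq_smul_one, smul_mul_assoc, one_mul,
      mul_smul_comm, smul_mul_assoc, h1.eq]

/-- Nonzero endomorphisms are invertible. -/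
theorem div_of_comm (h : PM Z) (hs : IsSimpleAV Z)
    {u : Matrix (Fin g ⊕ Fin g) (Fin g ⊕ Fin g) ℚ} (hu : qm u * DZ Z = DZ Z * qm u) :
    u = 0 ∨ IsUnit (qm u) := by
  by_cases h0 : LinearMap.ker (mulVecLin (qm u)) = ⊥
  · right
    rw [← Matrix.mulVec_injective_iff_isUnit]
    rw [LinearMap.ker_eq_bot] at h0
    exact h0
  · left
    have h1 := stable_eq_top h.det hs (LinearMap.ker (mulVecLin (qm u))) (by
      intro σ v hv
      rw [LinearMap.mem_ker, mulVecLin_apply] at hv ⊢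
      have h2 : qm u *ᵥ (fun i => σ (v i)) = fun i => σ ((qm u *ᵥ v) i) := by
        funext i
        simp [mulVec, dotProduct]
      rw [h2, hv]
      funext i
      simp) (by
      intro v hv
      rw [LinearMap.mem_ker, mulVecLin_apply] at hv ⊢
      rw [mulVec_mulVec, hu, ← mulVec_mulVec, hv, mulVec_zero]) h0
    have h2 : qm u = 0 := by
      apply Matrix.toLin'.injective
      rw [map_zero]
      exact LinearMap.ker_eq_top.1 h1
    ext i j
    have h3 := congrFun (congrFun h2 i) j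
    simpa [qm] using h3

theorem qm_inj {u v : Matrix (Fin g ⊕ Fin g) (Fin g ⊕ Fin g) ℚ} (h : qm u = qm v) : u = v := by
  ext i j
  have h3 := congrFun (congrFun h i) j
  simpa [qm] using h3

theorem poly_comm (hc : qm φ * DZ Z = DZ Z * qm φ) (p : Polynomial ℚ) :
    qm (Polynomial.aeval φ p) * DZ Z = DZ Z * qm (Polynomial.aeval φ p) := by
  have h1 : qm (Polynomial.aeval φ p) = Polynomial.aeval (qm φ) (p.map (algebraMap ℚ ℂ)) := by
    rw [qm_aeval, Polynomial.aeval_map_algebraMap]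
  rw [h1]
  exact (aevalC_comm hc.symm _).symm

/-- The minimal polynomial is irreducible. -/
theorem minpoly_irr (h : PM Z) (hs : IsSimpleAV Z) (hg : 0 < g)
    (hc : qm φ * DZ Z = DZ Z * qm φ) : Irreducible (minpoly ℚ φ) := by
  have hne : Nonempty (Fin g) := ⟨⟨0, hg⟩⟩
  let A := Algebra.adjoin ℚ ({φ} : Set (Matrix (Fin g ⊕ Fin g) (Fin g ⊕ Fin g) ℚ))
  have hnz : NoZeroDivisors A := by
    refine ⟨fun {x y} hxy => ?_⟩
    obtain ⟨p, hp⟩ := mem_adj x.2
    rcases div_of_comm h hs (hp ▸ poly_comm hc p) with h1 | h1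
    · left
      exact Subtype.ext h1
    · right
      have h2 : (x : Matrix (Fin g ⊕ Fin g) (Fin g ⊕ Fin g) ℚ) * y = 0 := congrArg Subtype.val hxy
      have h3 : qm (x : Matrix (Fin g ⊕ Fin g) (Fin g ⊕ Fin g) ℚ) * qm (y : Matrix _ _ ℚ) = 0 := by
        rw [← qm_mul, h2, qm_zero]
      have h4 := h1.mul_right_eq_zero.1 h3
      exact Subtype.ext (qm_inj (h4.trans qm_zero.symm))
  have hdom : IsDomain A := NoZeroDivisors.to_isDomain A
  let x : A := ⟨φ, Algebra.self_mem_adjoin_singleton ℚ φ⟩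
  have hx : minpoly ℚ φ = minpoly ℚ x := minpoly.algHom_eq A.val Subtype.val_injective x
  rw [hx]
  refine minpoly.irreducible ?_
  have h1 : IsIntegral ℚ (A.val x) := Matrix.isIntegral φ
  exact (isIntegral_algHom_iff A.val Subtype.val_injective).1 h1

/-- The roots of the minimal polynomial. -/
def Rt (φ : Matrix (Fin g ⊕ Fin g) (Fin g ⊕ Fin g) ℚ) : Finset ℂ :=
  ((minpoly ℚ φ).aroots ℂ).toFinset

theorem mem_Rt {z : ℂ} : z ∈ Rt φ ↔ z ∈ (minpoly ℚ φ).aroots ℂ := Multiset.mem_toFinset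

/-- The projectors. -/
def Pz (φ : Matrix (Fin g ⊕ Fin g) (Fin g ⊕ Fin g) ℚ) (z : ℂ) :
    Matrix (Fin g ⊕ Fin g) (Fin g ⊕ Fin g) ℂ :=
  Polynomial.aeval (qm φ) (Lagrange.basis (Rt φ) id z)

theorem prod_eq (hsep : (minpoly ℚ φ).Separable) :
    (minpoly ℚ φ).map (algebraMap ℚ ℂ) = ∏ w ∈ Rt φ, (Polynomial.X - Polynomial.C w) := by
  have h1 := (IsAlgClosed.splits ((minpoly ℚ φ).map (algebraMap ℚ ℂ))).eq_prod_roots_of_monic
    ((minpoly.monic (Matrix.isIntegral φ)).map _)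
  have h2 : ((minpoly ℚ φ).map (algebraMap ℚ ℂ)).roots.Nodup := Polynomial.nodup_roots hsep.map
  rw [h1, Finset.prod_eq_multiset_prod]
  congr 2
  rw [Rt, Multiset.toFinset_val]
  exact (Multiset.dedup_eq_self.2 h2).symm

theorem card_Rt (hsep : (minpoly ℚ φ).Separable) : (Rt φ).card = (minpoly ℚ φ).natDegree := by
  have h1 := prod_eq hsep
  have h2 := congrArg Polynomial.natDegree h1
  rw [Polynomial.natDegree_map, Polynomial.natDegree_prod_of_monic _ _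
    (fun w _ => Polynomial.monic_X_sub_C w)] at h2
  rw [h2]
  simp

theorem aeval_mp : Polynomial.aeval (qm φ) ((minpoly ℚ φ).map (algebraMap ℚ ℂ)) = 0 := by
  rw [Polynomial.aeval_map_algebraMap, ← qm_aeval, minpoly.aeval, qm_zero]

theorem Pz_mem (hsep : (minpoly ℚ φ).Separable) {z : ℂ} (hz : z ∈ Rt φ)
    (v : Fin g ⊕ Fin g → ℂ) : Pz φ z *ᵥ v ∈ EigM φ z := by
  have h1 : (Polynomial.X - Polynomial.C z) * Lagrange.basis (Rt φ) id z =
      Polynomial.C (∏ w ∈ (Rt φ).erase z, (z - w)⁻¹) * (minpoly ℚ φ).map (algebraMap ℚ ℂ) := by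
    rw [prod_eq hsep, ← Finset.mul_prod_erase _ _ hz]
    unfold Lagrange.basis
    simp only [Lagrange.basisDivisor, Finset.prod_mul_distrib, map_prod, id]
    ring
  have h2 := congrArg (Polynomial.aeval (qm φ)) h1
  rw [map_mul, map_mul, aeval_mp, mul_zero, map_sub, Polynomial.aeval_X, Polynomial.aeval_C,
    sub_mul, sub_eq_zero] at h2
  rw [mem_EigM, mulVec_mulVec]
  have h3 : qm φ * Pz φ z = algebraMap ℂ _ z * Pz φ z := h2
  rw [h3, Algebra.algebraMap_eq_smul_one, smul_mul_assoc, one_mul, smul_mulVec]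

theorem Pz_self {z : ℂ} (hz : z ∈ Rt φ) {v : Fin g ⊕ Fin g → ℂ} (hv : v ∈ EigM φ z) :
    Pz φ z *ᵥ v = v := by
  have h1 : (Lagrange.basis (Rt φ) id z).eval z = 1 :=
    Lagrange.eval_basis_self (v := id) (fun _ _ _ _ h => h) hz
  rw [Pz, aevalC_mulVec (mem_EigM.1 hv), h1, one_smul]

theorem Pz_other {z w : ℂ} (hzw : z ≠ w) (hw : w ∈ Rt φ) {v : Fin g ⊕ Fin g → ℂ}
    (hv : v ∈ EigM φ w) : Pz φ z *ᵥ v = 0 := by
  have h1 : (Lagrange.basis (Rt φ) id z).eval w = 0 :=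
    Lagrange.eval_basis_of_ne (v := id) hzw hw
  rw [Pz, aevalC_mulVec (mem_EigM.1 hv), h1, zero_smul]

theorem Rt_nonempty (hg : 0 < g) : (Rt φ).Nonempty := by
  have hne : Nonempty (Fin g) := ⟨⟨0, hg⟩⟩
  have h1 := minpoly.natDegree_pos (Matrix.isIntegral φ)
  have h2 : ((minpoly ℚ φ).map (algebraMap ℚ ℂ)).degree ≠ 0 := by
    rw [Polynomial.degree_map]
    exact (Polynomial.natDegree_pos_iff_degree_pos.1 h1).ne'
  obtain ⟨z, hz⟩ := IsAlgClosed.exists_root _ h2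
  refine ⟨z, mem_Rt.2 ?_⟩
  rw [Polynomial.mem_aroots]
  refine ⟨minpoly.ne_zero (Matrix.isIntegral φ), ?_⟩
  rwa [Polynomial.IsRoot.def, Polynomial.eval_map_algebraMap] at hz

theorem Pz_sum (hg : 0 < g) : ∑ z ∈ Rt φ, Pz φ z = 1 := by
  unfold Pz
  rw [← map_sum]
  have h1 := Lagrange.sum_basis (s := Rt φ) (v := (id : ℂ → ℂ)) (fun _ _ _ _ h => h)
    (Rt_nonempty hg)
  rw [h1, map_one]

theorem Pz_comm (hc : qm φ * DZ Z = DZ Z * qm φ) (z : ℂ) :
    ∀ X ∈ LZ Z, X * Pz φ z = Pz φ z * X := fun X hX => aevalC_comm (qm_comm hc X hX).symm _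

theorem Pz_idem (hsep : (minpoly ℚ φ).Separable) {z : ℂ} (hz : z ∈ Rt φ) :
    Pz φ z * Pz φ z = Pz φ z := mat_ext fun v => by
  rw [← mulVec_mulVec, Pz_self hz (Pz_mem hsep hz v)]

/-- Roots are eigenvalues. -/
theorem EigM_ne {z : ℂ} (hz : z ∈ Rt φ) : EigM φ z ≠ ⊥ := by
  rw [mem_Rt, Polynomial.mem_aroots] at hz
  have h1 : Polynomial.aeval z φ.charpoly = 0 :=
    Polynomial.aeval_eq_zero_of_dvd_aeval_eq_zero (Matrix.minpoly_dvd_charpoly φ) hz.2
  have h2 : (qm φ).charpoly = φ.charpoly.map (algebraMap ℚ ℂ) :=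
    Matrix.charpoly_map φ (algebraMap ℚ ℂ)
  have h3 : (qm φ).charpoly.eval z = 0 := by
    rw [h2, Polynomial.eval_map_algebraMap]
    exact h1
  rw [Matrix.eval_charpoly] at h3
  obtain ⟨v, hv, hv0⟩ := Matrix.exists_mulVec_eq_zero_iff.2 h3
  rw [sub_mulVec, sub_eq_zero] at hv0
  intro h4
  apply hv
  rw [← Submodule.mem_bot ℂ, ← h4, mem_EigM, ← hv0]
  simp [Matrix.scalar_apply, ← Matrix.smul_one_eq_diagonal, smul_mulVec]

/-- The space of the equivariant matrices which commute with `φ`. -/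
def CF (Z : Matrix (Fin g) (Fin g) ℂ) (φ : Matrix (Fin g ⊕ Fin g) (Fin g ⊕ Fin g) ℚ) :
    Submodule ℂ (Matrix (Fin g ⊕ Fin g) (Fin g ⊕ Fin g) ℂ) where
  carrier := {X | InCm {DZ Z} X ∧ X * qm φ = qm φ * X}
  zero_mem' := ⟨fun X _ => by rw [zero_mul, mul_zero], by rw [zero_mul, mul_zero]⟩
  add_mem' := fun {a b} ha hb => ⟨fun X hX => by rw [add_mul, mul_add, ha.1 X hX, hb.1 X hX], by
    rw [add_mul, mul_add, ha.2, hb.2]⟩
  smul_mem' := fun r a ha => ⟨fun X hX => by rw [smul_mul_assoc, mul_smul_comm, ha.1 X hX], by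
    rw [smul_mul_assoc, mul_smul_comm, ha.2]⟩

theorem CF_scal (hφ : MaxM Z φ) (α : ℂ) :
    ∀ X ∈ CF Z φ, ∃ k : ℂ, ∀ v ∈ EigM φ α, X *ᵥ v = k • v := by
  refine rational_induction (CF Z φ) ?_ ?_ ?_ ?_ ?_
  · rintro σ X ⟨h1, h2⟩
    refine ⟨h1.aut σ, ?_⟩
    have h3 := congrArg (fun Y : Matrix (Fin g ⊕ Fin g) (Fin g ⊕ Fin g) ℂ =>
      Y.map (σ : ℂ →+* ℂ)) h2
    simp only [Matrix.map_mul] at h3
    have h4 : (qm φ).map (σ : ℂ →+* ℂ) = qm φ := Pool.Agent.W548.Odd.qm_aut φ _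
    rw [h4] at h3
    exact h3
  · rintro u ⟨h1, h2⟩
    have h3 : u * φ = φ * u := by
      apply qm_inj
      rw [qm_mul, qm_mul]
      exact h2
    obtain ⟨p, rfl⟩ := mem_adj (hφ.2 u (h1 _ DZ_mem) h3)
    refine ⟨Polynomial.aeval α p, fun v hv => ?_⟩
    change qm (Polynomial.aeval φ p) *ᵥ v = _
    rw [qm_aeval]
    exact aeval_mulVec (mem_EigM.1 hv) p
  · exact ⟨0, fun v _ => by rw [zero_mulVec, zero_smul]⟩
  · rintro X Y ⟨k, hk⟩ ⟨l, hl⟩
    exact ⟨k + l, fun v hv => by rw [add_mulVec, hk v hv, hl v hv, add_smul]⟩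
  · rintro c X ⟨k, hk⟩
    exact ⟨c * k, fun v hv => by rw [smul_mulVec, hk v hv, smul_smul]⟩

theorem EigM_stab (hc : qm φ * DZ Z = DZ Z * qm φ) (z : ℂ) : Stab (LZ Z) (EigM φ z) := by
  intro X hX v hv
  rw [mem_EigM] at hv ⊢
  rw [mulVec_mulVec, qm_comm hc X hX, ← mulVec_mulVec, hv, mulVec_smul]

/-- The eigenspaces are irreducible. -/
theorem EigM_irr (h : PM Z) (hφ : MaxM Z φ) (hsep : (minpoly ℚ φ).Separable) {z : ℂ}
    (hz : z ∈ Rt φ) : IrS (LZ Z) (EigM φ z) := by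
  refine ⟨EigM_ne hz, EigM_stab hφ.1 z, fun W hW hs => ?_⟩
  by_cases h0 : W = ⊥
  · exact Or.inl h0
  right
  obtain ⟨π, p1, p2, p3⟩ := h.cred W hs
  set M := LinearMap.toMatrix' π with hM
  have hMv : ∀ v, M *ᵥ v = π v := by
    intro v
    rw [hM, ← Matrix.toLin'_apply, Matrix.toLin'_toMatrix']
  have hMc : ∀ X ∈ LZ Z, M * X = X * M := by
    intro X hX
    refine mat_ext fun v => ?_
    rw [← mulVec_mulVec, ← mulVec_mulVec, hMv, hMv, p1 X hX]
  have hS : M * Pz φ z ∈ CF Z φ := by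
    refine ⟨fun X hX => ?_, ?_⟩
    · rw [mul_assoc, ← Pz_comm hφ.1 z X hX, ← mul_assoc, hMc X hX, mul_assoc]
    · refine mat_ext fun v => ?_
      have h1 : Pz φ z * qm φ = z • Pz φ z := by
        have h2 : qm φ * Pz φ z = Pz φ z * qm φ := aevalC_comm rfl _
        rw [← h2]
        refine mat_ext fun v => ?_
        rw [← mulVec_mulVec, mem_EigM.1 (Pz_mem hsep hz v), smul_mulVec]
      rw [mul_assoc, h1, ← mulVec_mulVec, smul_mulVec, mulVec_smul, ← mulVec_mulVec, hMv,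
        ← mulVec_mulVec, hMv, mem_EigM.1 (hW (p2 _))]
  obtain ⟨k, hk⟩ := CF_scal hφ z _ hS
  obtain ⟨w, hw, hw0⟩ := Submodule.exists_mem_ne_zero_of_ne_bot h0
  have h1 := hk w (hW hw)
  rw [← mulVec_mulVec, Pz_self hz (hW hw), hMv, p3 w hw] at h1
  have hk1 : k = 1 := by
    have h2 : (k - 1) • w = 0 := by rw [sub_smul, ← h1, one_smul, sub_self]
    exact sub_eq_zero.1 ((smul_eq_zero.1 h2).resolve_right hw0)
  refine le_antisymm hW fun v hv => ?_
  have h2 := hk v hv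
  rw [← mulVec_mulVec, Pz_self hz hv, hMv, hk1, one_smul] at h2
  rw [← h2]
  exact p2 v

/-- The dimensions of the eigenspaces. -/
theorem finrank_EigM (h : PM Z) (hs : IsSimpleAV Z) (hg : 0 < g) (hφ : MaxM Z φ)
    (hsep : (minpoly ℚ φ).Separable) {z : ℂ} (hz : z ∈ Rt φ) :
    finrank ℂ (EigM φ z) * (minpoly ℚ φ).natDegree = 2 * g := by
  classical
  have hsum : ∀ v, ∑ w : Rt φ, Pz φ w *ᵥ v = v := by
    intro v
    rw [Finset.sum_coe_sort (Rt φ) (fun w => Pz φ w *ᵥ v), ← Matrix.sum_mulVec, Pz_sum hg,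
      one_mulVec]
  let e : (Fin g ⊕ Fin g → ℂ) ≃ₗ[ℂ] (∀ w : Rt φ, EigM φ w) :=
    { toFun := fun v w => ⟨Pz φ w *ᵥ v, Pz_mem hsep w.2 v⟩
      map_add' := fun v v' => by
        funext w
        exact Subtype.ext (mulVec_add (Pz φ w) v v')
      map_smul' := fun c v => by
        funext w
        exact Subtype.ext (mulVec_smul (Pz φ w) c v)
      invFun := fun u => ∑ w : Rt φ, (u w : Fin g ⊕ Fin g → ℂ)
      left_inv := hsum
      right_inv := fun u => by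
        funext w
        apply Subtype.ext
        change Pz φ w *ᵥ (∑ w' : Rt φ, (u w' : Fin g ⊕ Fin g → ℂ)) = u w
        rw [mulVec_sum, Finset.sum_eq_single w]
        · exact Pz_self w.2 (u w).2
        · intro w' _ hne
          exact Pz_other (fun h0 => hne (Subtype.ext h0.symm)) w'.2 (u w').2
        · intro h0
          exact absurd (Finset.mem_univ _) h0 }
  have h1 := e.finrank_eq
  rw [finrank_V, Module.finrank_pi_fintype] at h1
  have h2 : ∀ w : Rt φ, finrank ℂ (EigM φ w) = finrank ℂ (EigM φ z) := fun w =>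
    finrank_irS h hs (EigM_irr h hφ hsep w.2) (EigM_irr h hφ hsep hz)
  rw [Finset.sum_congr rfl fun w _ => h2 w, Finset.sum_const, Finset.card_univ,
    Fintype.card_coe, card_Rt hsep, smul_eq_mul] at h1
  rw [h1, mul_comm]

theorem Rt_aut {z : ℂ} (hz : z ∈ Rt φ) (σ : ℂ ≃+* ℂ) : σ z ∈ Rt φ := by
  rw [mem_Rt, Polynomial.mem_aroots] at hz ⊢
  refine ⟨hz.1, ?_⟩
  have h1 : Polynomial.aeval (σ z) (minpoly ℚ φ) = σ (Polynomial.aeval z (minpoly ℚ φ)) := by
    have h2 := Polynomial.hom_eval₂ (minpoly ℚ φ) (algebraMap ℚ ℂ) (σ : ℂ →+* ℂ) z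
    rw [Polynomial.aeval_def, Polynomial.aeval_def]
    refine Eq.trans ?_ h2.symm
    congr 1
    exact Subsingleton.elim _ _
  rw [h1, hz.2, map_zero]

theorem Pz_map (σ : ℂ ≃+* ℂ) (z : ℂ) : (Pz φ z).map σ = Pz φ (σ z) := by
  have h1 : (Lagrange.basis (Rt φ) id z).map (σ : ℂ →+* ℂ) = Lagrange.basis (Rt φ) id (σ z) := by
    unfold Lagrange.basis
    rw [Polynomial.map_prod]
    refine Finset.prod_bij' (fun w _ => σ w) (fun w _ => σ.symm w) ?_ ?_ ?_ ?_ ?_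
    · intro w hw
      rw [Finset.mem_erase] at hw ⊢
      exact ⟨fun h0 => hw.1 (σ.injective h0), Rt_aut hw.2 σ⟩
    · intro w hw
      rw [Finset.mem_erase] at hw ⊢
      exact ⟨fun h0 => hw.1 (by rw [← h0, RingEquiv.apply_symm_apply]), Rt_aut hw.2 σ.symm⟩
    · intro w _
      exact σ.symm_apply_apply w
    · intro w _
      exact σ.apply_symm_apply w
    · intro w _
      simp [Lagrange.basisDivisor]
  have h2 := Polynomial.map_aeval_eq_aeval_map (φ := (σ : ℂ →+* ℂ))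
    (ψ := (σ : ℂ →+* ℂ).mapMatrix (m := Fin g ⊕ Fin g)) (by
      ext x i j
      simp [Matrix.algebraMap_matrix_apply]
      split_ifs <;> simp) (Lagrange.basis (Rt φ) id z) (qm φ)
  have h3 : (σ : ℂ →+* ℂ).mapMatrix (qm φ) = qm φ := Pool.Agent.W548.Odd.qm_aut φ _
  rw [h3, h1] at h2
  exact h2

theorem Pz_hasPr (hsep : (minpoly ℚ φ).Separable) (hc : qm φ * DZ Z = DZ Z * qm φ)
    (hcm : ∀ z ∈ (minpoly ℚ φ).aroots ℂ, ∀ σ : ℂ ≃+* ℂ, cc (σ z) = σ (cc z)) {z : ℂ}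
    (hz : z ∈ Rt φ) : HasPr (LZ Z) (EigM φ z) := by
  refine ⟨Pz φ z, Pz_idem hsep hz, Pz_comm hc z, fun v => ⟨Pz_self hz, fun hv => ?_⟩, ?_, ?_⟩
  · rw [← hv]
    exact Pz_mem hsep hz v
  · refine ((Rt φ).finite_toSet.image (Pz φ)).subset ?_
    rintro _ ⟨σ, rfl⟩
    exact ⟨σ z, Rt_aut hz σ, (Pz_map σ z).symm⟩
  · intro σ i j
    have h1 : ((Pz φ z).map σ).map cc = ((Pz φ z).map cc).map σ := by
      rw [Pz_map, Pz_map, Pz_map, Pz_map, hcm z (mem_Rt.1 hz) σ]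
    exact congrFun (congrFun h1 i) j

/-- The spectral decomposition. -/
theorem jspec : Pool.Agent.Y4.P.JSpec := by
  intro g Z h hs hg φ hφ
  have hirr := minpoly_irr h hs hg hφ.1
  have hsep : (minpoly ℚ φ).Separable := hirr.separable
  refine ⟨fun z hz => ⟨EigM_irr h hφ hsep (mem_Rt.2 hz), finrank_EigM h hs hg hφ hsep (mem_Rt.2 hz)⟩,
    fun U hU => ?_, fun hcm z hz => Pz_hasPr hsep hφ.1 hcm (mem_Rt.2 hz)⟩
  obtain ⟨u, hu, hu0⟩ := Submodule.exists_mem_ne_zero_of_ne_bot hU.1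
  obtain ⟨z, hz, hzu⟩ : ∃ z ∈ Rt φ, Pz φ z *ᵥ u ≠ 0 := by
    by_contra hcon
    push Not at hcon
    apply hu0
    have h1 : u = ∑ z ∈ Rt φ, Pz φ z *ᵥ u := by
      rw [← Matrix.sum_mulVec, Pz_sum hg, one_mulVec]
    rw [h1]
    exact Finset.sum_eq_zero hcon
  have hT : ∀ X ∈ LZ Z, ∀ v, mulVecLin (Pz φ z) (X *ᵥ v) = X *ᵥ mulVecLin (Pz φ z) v := by
    intro X hX v
    rw [mulVecLin_apply, mulVecLin_apply, mulVec_mulVec, mulVec_mulVec, Pz_comm hφ.1 z X hX]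
  refine ⟨z, mem_Rt.1 hz, mulVecLin (Pz φ z), hT,
    hU.inj (fun X hX v _ => hT X hX v) ⟨u, hu, hzu⟩, ?_⟩
  exact hU.map_eq (EigM_irr h hφ hsep hz) (fun X hX v _ => hT X hX v) ⟨u, hu, hzu⟩
    fun v _ => Pz_mem hsep hz v

end

end Pool.Agent.Y261.P
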